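import Mathlib
import Pool.Agent.W781.LW.Stm

set_option autoImplicit false

open Matrix

namespace Pool.Agent.W250.LW

open Pool.Agent.W781.LW

variable {n m : ℕ}

/-- real squared norm -/
noncomputable def nrm (A : Matrix (Fin n) (Fin n) ℝ) : ℝ := ∑ i, ∑ j, (A i j) ^ 2

/-- rotation of a family -/
noncomputable def rot (O : Matrix (Fin m) (Fin m) ℝ) (B : Fin m → Matrix (Fin n) (Fin n) ℝ)
    (a : Fin m) : Matrix (Fin n) (Fin n) ℝ := ∑ b, O a b • B b

lemma nrm_rot (O : Matrix (Fin m) (Fin m) ℝ) (hO : Oᵀ * O = 1)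
    (B : Fin m → Matrix (Fin n) (Fin n) ℝ) :
    ∑ a, nrm (rot O B a) = ∑ a, nrm (B a) := by
  unfold nrm
  have h1 : ∀ v : Fin m → ℝ, ∑ a, (∑ b, O a b * v b) ^ 2 = ∑ a, (v a) ^ 2 := by
    intro v
    have h2 : (O *ᵥ v) ⬝ᵥ (O *ᵥ v) = v ⬝ᵥ v := by
      rw [Matrix.dotProduct_mulVec, Matrix.vecMul_mulVec, ← Matrix.dotProduct_mulVec]
      rw [hO]
      simp
    have h3 : (O *ᵥ v) ⬝ᵥ (O *ᵥ v) = ∑ a, (∑ b, O a b * v b) ^ 2 := by
      simp only [dotProduct, mulVec, sq]
    have h4 : v ⬝ᵥ v = ∑ a, (v a) ^ 2 := by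
      simp only [dotProduct, sq]
    rw [← h3, h2, h4]
  rw [Finset.sum_comm]
  rw [Finset.sum_comm (s := Finset.univ) (t := Finset.univ) (f := fun a i => ∑ j, (B a i j) ^ 2)]
  apply Finset.sum_congr rfl
  intro i _
  rw [Finset.sum_comm]
  rw [Finset.sum_comm (s := Finset.univ) (t := Finset.univ) (f := fun a j => (B a i j) ^ 2)]
  apply Finset.sum_congr rfl
  intro j _
  rw [← h1 (fun b => B b i j)]
  apply Finset.sum_congr rfl
  intro a _
  congr 1
  simp [rot, Matrix.sum_apply]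

/-- real commutator -/
noncomputable def rc (A B : Matrix (Fin n) (Fin n) ℝ) : Matrix (Fin n) (Fin n) ℝ := A * B - B * A

lemma rc_rot_right (O : Matrix (Fin m) (Fin m) ℝ) (B : Fin m → Matrix (Fin n) (Fin n) ℝ)
    (A : Matrix (Fin n) (Fin n) ℝ) (a : Fin m) :
    rc A (rot O B a) = rot O (fun b => rc A (B b)) a := by
  unfold rc rot
  simp only [Finset.mul_sum, Finset.sum_mul, smul_sub, Finset.sum_sub_distrib,
    Matrix.mul_smul, Matrix.smul_mul]

lemma rc_rot_left (O : Matrix (Fin m) (Fin m) ℝ) (B : Fin m → Matrix (Fin n) (Fin n) ℝ)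
    (A : Matrix (Fin n) (Fin n) ℝ) (a : Fin m) :
    rc (rot O B a) A = rot O (fun b => rc (B b) A) a := by
  unfold rc rot
  simp only [Finset.mul_sum, Finset.sum_mul, smul_sub, Finset.sum_sub_distrib,
    Matrix.mul_smul, Matrix.smul_mul]

lemma nrm_rc_rot (O : Matrix (Fin m) (Fin m) ℝ) (hO : Oᵀ * O = 1)
    (B : Fin m → Matrix (Fin n) (Fin n) ℝ) :
    ∑ a, ∑ b, nrm (rc (rot O B a) (rot O B b)) = ∑ a, ∑ b, nrm (rc (B a) (B b)) := by
  have h1 : ∀ a, ∑ b, nrm (rc (rot O B a) (rot O B b)) = ∑ b, nrm (rc (rot O B a) (B b)) := by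
    intro a
    simp only [rc_rot_right O B (rot O B a)]
    exact nrm_rot O hO _
  simp only [h1]
  rw [Finset.sum_comm]
  rw [Finset.sum_comm (s := Finset.univ) (t := Finset.univ) (f := fun a b => nrm (rc (B a) (B b)))]
  apply Finset.sum_congr rfl
  intro b _
  simp only [rc_rot_left O B (B b)]
  exact nrm_rot O hO _

lemma trace_rot1 (O : Matrix (Fin m) (Fin m) ℝ) (B : Fin m → Matrix (Fin n) (Fin n) ℝ)
    (C : Matrix (Fin n) (Fin n) ℝ) (h : ∀ a, trace (B a * C) = 0) (a : Fin m) :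
    trace (rot O B a * C) = 0 := by
  unfold rot
  rw [Finset.sum_mul, Matrix.trace_sum]
  apply Finset.sum_eq_zero
  intro b _
  rw [Matrix.smul_mul, Matrix.trace_smul, h b, smul_zero]

lemma trace_rot2 (O : Matrix (Fin m) (Fin m) ℝ) (B : Fin m → Matrix (Fin n) (Fin n) ℝ)
    (C : Matrix (Fin n) (Fin n) ℝ) (h : ∀ a, trace (C * B a) = 0) (a : Fin m) :
    trace (C * rot O B a) = 0 := by
  unfold rot
  rw [Finset.mul_sum, Matrix.trace_sum]
  apply Finset.sum_eq_zero
  intro b _
  rw [Matrix.mul_smul, Matrix.trace_smul, h b, smul_zero]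

lemma iso_rot (O : Matrix (Fin m) (Fin m) ℝ) (B : Fin m → Matrix (Fin n) (Fin n) ℝ)
    (h : ∀ a b c, trace (B a * rc (B c) (B b)) = 0) (a b c : Fin m) :
    trace (rot O B a * rc (rot O B c) (rot O B b)) = 0 := by
  rw [rc_rot_right]
  apply trace_rot2
  intro b
  rw [rc_rot_left]
  apply trace_rot2
  intro c
  apply trace_rot1
  intro a
  exact h a b c

/-- real Frobenius inner product -/
noncomputable def ip (A B : Matrix (Fin n) (Fin n) ℝ) : ℝ := ∑ i, ∑ j, A i j * B i j

lemma ip_comm (A B : Matrix (Fin n) (Fin n) ℝ) : ip A B = ip B A := by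
  unfold ip
  apply Finset.sum_congr rfl
  intro i _
  apply Finset.sum_congr rfl
  intro j _
  ring

lemma ip_rot_left (O : Matrix (Fin m) (Fin m) ℝ) (B : Fin m → Matrix (Fin n) (Fin n) ℝ)
    (C : Matrix (Fin n) (Fin n) ℝ) (a : Fin m) :
    ip (rot O B a) C = ∑ b, O a b * ip (B b) C := by
  unfold ip rot
  have h1 : ∑ b, O a b * ∑ i, ∑ j, B b i j * C i j
      = ∑ i, ∑ b, ∑ j, O a b * (B b i j * C i j) := by
    simp only [Finset.mul_sum]
    rw [Finset.sum_comm]
  rw [h1]
  apply Finset.sum_congr rfl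
  intro i _
  rw [Finset.sum_comm]
  apply Finset.sum_congr rfl
  intro j _
  simp only [Matrix.sum_apply, Matrix.smul_apply, smul_eq_mul, Finset.sum_mul]
  apply Finset.sum_congr rfl
  intro b _
  ring

/-- existence of the rotation -/
lemma exists_rot (B : Fin m → Matrix (Fin n) (Fin n) ℝ) :
    ∃ O : Matrix (Fin m) (Fin m) ℝ, Oᵀ * O = 1 ∧
      ∀ a b, a ≠ b → ip (rot O B a) (rot O B b) = 0 := by
  let G : Matrix (Fin m) (Fin m) ℝ := Matrix.of (fun a b => ip (B a) (B b))
  have hG : G.IsHermitian := by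
    ext a b
    simp only [G, Matrix.conjTranspose_apply, Matrix.of_apply, star_trivial]
    exact ip_comm _ _
  let U : Matrix (Fin m) (Fin m) ℝ := (hG.eigenvectorUnitary : Matrix (Fin m) (Fin m) ℝ)
  have hU1 : Uᵀ * U = 1 := by
    have := hG.eigenvectorUnitary.2
    rw [Matrix.mem_unitaryGroup_iff'] at this
    simpa [U, Matrix.star_eq_conjTranspose, Matrix.conjTranspose_eq_transpose_of_trivial] using this
  have hU2 : U * Uᵀ = 1 := by
    have := hG.eigenvectorUnitary.2
    rw [Matrix.mem_unitaryGroup_iff] at this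
    simpa [U, Matrix.star_eq_conjTranspose, Matrix.conjTranspose_eq_transpose_of_trivial] using this
  have hs : G = U * diagonal hG.eigenvalues * Uᵀ := by
    have h := hG.spectral_theorem
    rw [Unitary.conjStarAlgAut_apply] at h
    have h' : G = U * diagonal (RCLike.ofReal ∘ hG.eigenvalues) * star U := h
    refine h'.trans ?_
    rw [Matrix.star_eq_conjTranspose, Matrix.conjTranspose_eq_transpose_of_trivial]
    rfl
  refine ⟨Uᵀ, ?_, ?_⟩
  · rw [Matrix.transpose_transpose]; exact hU2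
  · intro a b hab
    have h1 : ip (rot Uᵀ B a) (rot Uᵀ B b) = (Uᵀ * G * U) a b := by
      rw [ip_rot_left]
      simp only [Matrix.mul_apply, Finset.sum_mul]
      rw [Finset.sum_comm]
      apply Finset.sum_congr rfl
      intro c _
      rw [ip_comm, ip_rot_left, Finset.mul_sum]
      apply Finset.sum_congr rfl
      intro d _
      simp only [G, Matrix.of_apply, Matrix.transpose_apply]
      rw [ip_comm (B c) (B d)]
      ring
    rw [h1]
    have h3 : Uᵀ * G * U = diagonal hG.eigenvalues := by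
      calc Uᵀ * G * U = Uᵀ * (U * diagonal hG.eigenvalues * Uᵀ) * U := by
            exact congrArg (fun X => Uᵀ * X * U) hs
        _ = (Uᵀ * U) * diagonal hG.eigenvalues * (Uᵀ * U) := by
            simp only [Matrix.mul_assoc]
        _ = diagonal hG.eigenvalues := by
            rw [hU1, Matrix.one_mul, Matrix.mul_one]
    rw [h3, Matrix.diagonal_apply_ne _ hab]

lemma ip_self (A : Matrix (Fin n) (Fin n) ℝ) : ip A A = nrm A := by
  unfold ip nrm
  simp only [sq]

lemma nrm_nonneg (A : Matrix (Fin n) (Fin n) ℝ) : 0 ≤ nrm A := by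
  unfold nrm
  exact Finset.sum_nonneg fun i _ => Finset.sum_nonneg fun j _ => sq_nonneg _

lemma nrm_eq_zero {A : Matrix (Fin n) (Fin n) ℝ} (h : nrm A = 0) : A = 0 := by
  unfold nrm at h
  ext i j
  have h1 : ∀ i ∈ (Finset.univ : Finset (Fin n)), ∑ j, (A i j) ^ 2 = 0 :=
    (Finset.sum_eq_zero_iff_of_nonneg
      (fun (i : Fin n) _ => Finset.sum_nonneg fun (j : Fin n) _ => sq_nonneg (A i j))).mp h
  have h2 : ∀ j ∈ (Finset.univ : Finset (Fin n)), (A i j) ^ 2 = 0 :=
    (Finset.sum_eq_zero_iff_of_nonneg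
      (fun (j : Fin n) _ => sq_nonneg (A i j))).mp (h1 i (Finset.mem_univ i))
  simpa using h2 j (Finset.mem_univ j)

/-- complexification -/
noncomputable def cx (A : Matrix (Fin n) (Fin n) ℝ) : Matrix (Fin n) (Fin n) ℂ :=
  A.map (fun r => (r : ℂ))

lemma cx_mul (A B : Matrix (Fin n) (Fin n) ℝ) : cx (A * B) = cx A * cx B := by
  ext i j
  simp [cx, Matrix.mul_apply]

lemma cx_sub (A B : Matrix (Fin n) (Fin n) ℝ) : cx (A - B) = cx A - cx B := by
  ext i j
  simp [cx]

lemma com_cx (A B : Matrix (Fin n) (Fin n) ℝ) : com (cx A) (cx B) = cx (rc A B) := by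
  unfold com rc
  rw [cx_sub, cx_mul, cx_mul]

lemma fro_cx (A : Matrix (Fin n) (Fin n) ℝ) : fro (cx A) = nrm A := by
  unfold fro nrm cx
  simp

lemma trace_cx (A : Matrix (Fin n) (Fin n) ℝ) : trace (cx A) = ((trace A : ℝ) : ℂ) := by
  simp [cx, Matrix.trace]

lemma trace_cx_mul (A B : Matrix (Fin n) (Fin n) ℝ) :
    trace (cx A * (cx B)ᴴ) = ((ip A B : ℝ) : ℂ) := by
  have h1 : (cx B)ᴴ = cx Bᵀ := by
    ext i j
    simp [cx]
  rw [h1, ← cx_mul, trace_cx]
  have h2 : trace (A * Bᵀ) = ip A B := by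
    unfold ip
    simp only [Matrix.trace, Matrix.diag, Matrix.mul_apply, Matrix.transpose_apply]
  rw [h2]

lemma ip_smul_left (t : ℝ) (A B : Matrix (Fin n) (Fin n) ℝ) : ip (t • A) B = t * ip A B := by
  unfold ip
  simp only [Matrix.smul_apply, smul_eq_mul, Finset.mul_sum, mul_assoc]

lemma ip_smul_right (t : ℝ) (A B : Matrix (Fin n) (Fin n) ℝ) : ip A (t • B) = t * ip A B := by
  rw [ip_comm, ip_smul_left, ip_comm]

lemma nrm_smul (t : ℝ) (A : Matrix (Fin n) (Fin n) ℝ) : nrm (t • A) = t ^ 2 * nrm A := by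
  rw [← ip_self, ip_smul_left, ip_smul_right, ip_self]; ring

lemma rc_smul (s t : ℝ) (A B : Matrix (Fin n) (Fin n) ℝ) :
    rc (s • A) (t • B) = (s * t) • rc A B := by
  unfold rc
  simp only [Matrix.smul_mul, Matrix.mul_smul, smul_smul, smul_sub, mul_comm t s]

/-- scalar part -/
lemma scal (x : Fin m → ℝ) (c : Fin m → Fin m → ℝ) (hx : ∀ a, 0 ≤ x a)
    (hc0 : ∀ a, c a a = 0) (hcs : ∀ a b, c a b = c b a)
    (he : ∀ a, ∑ b, max 0 (c a b - 1) ≤ 1) :
    ∑ a, ∑ b, x a * x b * c a b ≤ (∑ a, x a) ^ 2 := by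
  have h0 : (∑ a, x a) ^ 2 = ∑ a, ∑ b, x a * x b := by
    rw [sq, Finset.sum_mul_sum]
  have h1 : ∀ a b, x a * x b * c a b - x a * x b ≤
      max 0 (c a b - 1) * x a ^ 2 / 2 + max 0 (c b a - 1) * x b ^ 2 / 2
        - (if a = b then x a ^ 2 else 0) := by
    intro a b
    by_cases hab : a = b
    · subst hab
      simp only [if_true, hc0]
      have : max (0:ℝ) (0 - 1) = 0 := by norm_num
      rw [this]
      nlinarith
    · simp only [hab, if_false]
      rw [hcs b a]
      have h2 : c a b - 1 ≤ max 0 (c a b - 1) := le_max_right _ _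
      have h3 : 0 ≤ max 0 (c a b - 1) := le_max_left _ _
      have h4 : 0 ≤ x a * x b := mul_nonneg (hx a) (hx b)
      have h5 : x a * x b * (c a b - 1) ≤ x a * x b * max 0 (c a b - 1) :=
        mul_le_mul_of_nonneg_left h2 h4
      have h6 : x a * x b * max 0 (c a b - 1) ≤ (x a ^ 2 + x b ^ 2) / 2 * max 0 (c a b - 1) := by
        apply mul_le_mul_of_nonneg_right _ h3
        nlinarith [sq_nonneg (x a - x b)]
      nlinarith
  have h2 : ∑ a, ∑ b, (x a * x b * c a b - x a * x b) ≤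
      ∑ a, ∑ b, (max 0 (c a b - 1) * x a ^ 2 / 2 + max 0 (c b a - 1) * x b ^ 2 / 2
        - (if a = b then x a ^ 2 else 0)) :=
    Finset.sum_le_sum fun a _ => Finset.sum_le_sum fun b _ => h1 a b
  have h3 : ∑ a, ∑ b, (max 0 (c a b - 1) * x a ^ 2 / 2 + max 0 (c b a - 1) * x b ^ 2 / 2
        - (if a = b then x a ^ 2 else 0)) = ∑ a, ((∑ b, max 0 (c a b - 1)) * x a ^ 2 - x a ^ 2) := by
    simp only [Finset.sum_sub_distrib, Finset.sum_add_distrib]
    have h4 : ∑ a : Fin m, ∑ b : Fin m, max 0 (c b a - 1) * x b ^ 2 / 2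
        = ∑ a : Fin m, ∑ b : Fin m, max 0 (c a b - 1) * x a ^ 2 / 2 := by
      rw [Finset.sum_comm]
    rw [h4, ← Finset.sum_add_distrib]
    congr 1
    · apply Finset.sum_congr rfl
      intro a _
      rw [Finset.sum_mul, ← Finset.sum_add_distrib]
      apply Finset.sum_congr rfl
      intro b _
      ring
    · apply Finset.sum_congr rfl
      intro a _
      simp
  have h5 : ∑ a, ((∑ b, max 0 (c a b - 1)) * x a ^ 2 - x a ^ 2) ≤ 0 := by
    apply Finset.sum_nonpos
    intro a _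
    nlinarith [he a, sq_nonneg (x a)]
  have h6 : ∑ a, ∑ b, (x a * x b * c a b - x a * x b)
      = ∑ a, ∑ b, x a * x b * c a b - ∑ a, ∑ b, x a * x b := by
    simp only [Finset.sum_sub_distrib]
  rw [h0]
  linarith

/-- the e-bound -/
lemma ebound (hI : S_ISO) (X : Matrix (Fin n) (Fin n) ℂ) (Y : Fin m → Matrix (Fin n) (Fin n) ℂ)
    (hX : fro X ≤ 1)
    (S : Finset (Fin m))
    (h1 : ∀ a ∈ S, ∀ b ∈ S, trace (Y a * (Y b)ᴴ) = if a = b then 1 else 0)
    (h2 : ∀ a b, trace (Y a * com X (Y b)) = 0) :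
    ∑ b ∈ S, (fro (com X (Y b)) - 1) ≤ 1 := by
  let e := S.equivFin
  have h3 := hI n S.card X (fun k => Y (e.symm k : Fin m)) (by
    intro a b
    rw [h1 _ (e.symm a).2 _ (e.symm b).2]
    by_cases hab : a = b
    · subst hab; simp
    · have : ((e.symm a : Fin m)) ≠ (e.symm b : Fin m) := by
        intro h
        exact hab (e.symm.injective (Subtype.ext h))
      simp [hab, this]) (fun a b => h2 _ _)
  have h4 : ∑ k, fro (com X (Y (e.symm k : Fin m))) = ∑ b ∈ S, fro (com X (Y b)) := by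
    rw [Equiv.sum_comp e.symm (fun b : S => fro (com X (Y (b : Fin m))))]
    exact Finset.sum_coe_sort S (fun b => fro (com X (Y b)))
  rw [Finset.sum_sub_distrib, ← h4]
  simp only [Finset.sum_const, nsmul_eq_mul, mul_one]
  have h5 : ((S.card : ℝ) + 1) * fro X ≤ ((S.card : ℝ) + 1) * 1 := by
    apply mul_le_mul_of_nonneg_left hX
    positivity
  linarith

theorem ddvv (hI : S_ISO) : S_04751 := by
  intro n m B hB
  obtain ⟨O, hO, hort⟩ := exists_rot B
  have hL : (∑ α : Fin m, ∑ β : Fin m, ∑ i : Fin n, ∑ j : Fin n,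
          ((B α * B β - B β * B α) i j) ^ 2)
      = ∑ a, ∑ b, nrm (rc (rot O B a) (rot O B b)) := by
    rw [nrm_rc_rot O hO B]
    rfl
  have hR : (∑ α : Fin m, ∑ i : Fin n, ∑ j : Fin n, (B α i j) ^ 2) = ∑ a, nrm (rot O B a) := by
    rw [nrm_rot O hO B]
    rfl
  rw [hL, hR]
  have hiso : ∀ a b c, trace (rot O B a * rc (rot O B c) (rot O B b)) = 0 :=
    iso_rot O B (fun a b c => hB a b c)
  generalize rot O B = C at *
  let x : Fin m → ℝ := fun a => nrm (C a)
  let D : Fin m → Matrix (Fin n) (Fin n) ℝ := fun a => (Real.sqrt (x a))⁻¹ • C a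
  have hx0 : ∀ a, 0 ≤ x a := fun a => nrm_nonneg _
  have hC0 : ∀ a, x a = 0 → C a = 0 := fun a h => nrm_eq_zero h
  have hxD : ∀ a, C a = Real.sqrt (x a) • D a := by
    intro a
    by_cases h : x a = 0
    · rw [h, hC0 a h]; simp
    · have h1 : Real.sqrt (x a) ≠ 0 := by
        intro h2
        exact h ((Real.sqrt_eq_zero (hx0 a)).mp h2)
      simp only [D, smul_smul]
      rw [mul_inv_cancel₀ h1, one_smul]
  have hD0 : ∀ a, x a = 0 → D a = 0 := by
    intro a h
    simp only [D]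
    rw [hC0 a h, smul_zero]
  have hD1 : ∀ a, x a ≠ 0 → nrm (D a) = 1 := by
    intro a h
    simp only [D]
    rw [nrm_smul, inv_pow, Real.sq_sqrt (hx0 a)]
    exact inv_mul_cancel₀ h
  have hDort : ∀ a b, a ≠ b → ip (D a) (D b) = 0 := by
    intro a b hab
    simp only [D]
    rw [ip_smul_left, ip_smul_right, hort a b hab]; ring
  have hDiso : ∀ a b c, trace (D a * rc (D c) (D b)) = 0 := by
    intro a b c
    simp only [D]
    rw [rc_smul, Matrix.smul_mul, Matrix.mul_smul, Matrix.trace_smul, Matrix.trace_smul, hiso a b c]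
    simp
  let c : Fin m → Fin m → ℝ := fun a b => nrm (rc (D a) (D b))
  have hcc : ∀ a b, nrm (rc (C a) (C b)) = x a * x b * c a b := by
    intro a b
    rw [hxD a, hxD b, rc_smul, nrm_smul, mul_pow, Real.sq_sqrt (hx0 a), Real.sq_sqrt (hx0 b)]
  simp only [hcc]
  apply scal x c hx0
  · intro a
    simp [c, rc, nrm]
  · intro a b
    have h1 : rc (D b) (D a) = (-1 : ℝ) • rc (D a) (D b) := by
      unfold rc
      simp
    simp only [c]
    rw [h1, nrm_smul]; ring
  · intro a
    let S : Finset (Fin m) := Finset.univ.filter (fun b => 1 < c a b)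
    have h1 : ∑ b, max 0 (c a b - 1) = ∑ b ∈ S, (c a b - 1) := by
      rw [Finset.sum_filter]
      apply Finset.sum_congr rfl
      intro b _
      split_ifs with h
      · exact max_eq_right (by linarith)
      · exact max_eq_left (by linarith)
    rw [h1]
    have h2 : ∀ b ∈ S, x b ≠ 0 := by
      intro b hb h
      have h3 : 1 < c a b := by simpa [S] using hb
      have h4 : c a b = 0 := by
        simp [c, hD0 b h, rc, nrm]
      linarith
    have h3 := ebound hI (cx (D a)) (fun b => cx (D b)) (by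
      rw [fro_cx]
      by_cases h : x a = 0
      · rw [hD0 a h]; simp [nrm]
      · exact le_of_eq (hD1 a h)) S (by
      intro b hb b' hb'
      rw [trace_cx_mul]
      by_cases hbb : b = b'
      · subst hbb
        rw [ip_self, hD1 b (h2 b hb)]; simp
      · rw [hDort b b' hbb]; simp [hbb]) (by
      intro b b'
      rw [com_cx, ← cx_mul, trace_cx, hDiso]
      simp)
    have h4 : ∀ b, fro (com (cx (D a)) (cx (D b))) = c a b := by
      intro b
      rw [com_cx, fro_cx]
    simp only [h4] at h3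
    exact h3

end Pool.Agent.W250.LW
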